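import Mathlib
import Pool.Agent.Run7.h735.Free
import Pool.Agent.Run7.h735.Final

/-!
# Almost all choices of the constants give a free semigroup

For fixed multipliers `m_i ≥ 2` with `∑ m_i ^ (-s) ≤ 1` for some `s < 1/2`, all but
`O(B ^ (k - 1 + 2 s))` of the `(B + 1) ^ k` tuples of constants `0 ≤ b_i ≤ B` are such that the maps
`x ↦ m_i x + b_i` generate a free semigroup.
-/

set_option autoImplicit false

namespace Pool.Agent.Results.MP_b21470_lc.AlmostAllConstants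

open Run7.h735

theorem result (k : ℕ) (m : Fin k → ℕ) (hm : ∀ i, 2 ≤ m i) (s : ℝ) (hs : 0 ≤ s)
    (hs2 : s < 1 / 2) (hsum : ∑ i, (m i : ℝ) ^ (-s) ≤ 1) :
    ∃ C : ℝ, ∀ B : ℕ, 1 ≤ B →
      ({b : Fin k → ℕ | (∀ i, b i ≤ B) ∧ ¬ IsFree m b}.ncard : ℝ)
        ≤ C * (B : ℝ) ^ ((k : ℝ) - 1 + 2 * s) :=
  general k m hm s hs hs2 hsum

end Pool.Agent.Results.MP_b21470_lc.AlmostAllConstants
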