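import Mathlib
import Pool.Agent.Run7.h735.Free
import Pool.Agent.Run7.h735.Final

/-!
# Three maps: the number of non-free triples of constants

For fixed multipliers `m_0, m_1, m_2 ≥ 2` with `∑ m_i ^ (-s) ≤ 1`, `s < 1/2`, `s ≠ 1/4`, the number of
triples of constants `0 ≤ b_i ≤ B` for which the maps `x ↦ m_i x + b_i` do not generate a free
semigroup lies between `c B ^ 2` and `C B ^ max(2, 1 + 4 s)`; its exact order is `B ^ 2` if `s < 1/4`.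
-/

set_option autoImplicit false

namespace Pool.Agent.Results.MP_b21470_lc.ThreeMapsCount

open Run7.h735

theorem result (m : Fin 3 → ℕ) (hm : ∀ i, 2 ≤ m i) (s : ℝ) (hs : 0 ≤ s)
    (hs2 : s < 1 / 2) (hs4 : s ≠ 1 / 4) (hsum : ∑ i, (m i : ℝ) ^ (-s) ≤ 1) :
    ∃ c C : ℝ, 0 < c ∧ ∀ B : ℕ, 1 ≤ B →
      c * (B : ℝ) ^ 2 ≤ ({b : Fin 3 → ℕ | (∀ i, b i ≤ B) ∧ ¬ IsFree m b}.ncard : ℝ) ∧
      ({b : Fin 3 → ℕ | (∀ i, b i ≤ B) ∧ ¬ IsFree m b}.ncard : ℝ)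
        ≤ C * (B : ℝ) ^ (max 2 (1 + 4 * s)) :=
  three m hm s hs hs2 hs4 hsum

end Pool.Agent.Results.MP_b21470_lc.ThreeMapsCount
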